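import Pool.Agent.Lib.MP_b5021c_nt.IfaceD

/-!
# Board b5, row GEN: generic functionals
-/

set_option autoImplicit false

namespace Pool.Agent.B5.H56

open Pool.Agent.B5

/-- Functionals separate the points outside a saturated sublattice from it. -/
theorem exists_sep (L : Type) [AddCommGroup L] [Module.Free ℤ L] [Module.Finite ℤ L]
    (K : Submodule ℤ L) (hK : Sat K) (d : L) (hd : d ∉ K) :
    ∃ nu : L →+ ℤ, (∀ k ∈ K, nu k = 0) ∧ nu d ≠ 0 := by
  have htf : Module.IsTorsionFree ℤ (L ⧸ K) := by
    rw [Module.isTorsionFree_iff_smul_eq_zero]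
    intro n x hx
    obtain ⟨a, rfl⟩ := Submodule.Quotient.mk_surjective K x
    by_cases hn : n = 0
    · exact Or.inl hn
    · right
      rw [← Submodule.Quotient.mk_smul, Submodule.Quotient.mk_eq_zero] at hx
      rw [Submodule.Quotient.mk_eq_zero]
      exact hK n a hn hx
  have hfree : Module.Free ℤ (L ⧸ K) := Module.free_of_finite_type_torsion_free'
  have hdne : (Submodule.Quotient.mk d : L ⧸ K) ≠ 0 := by
    rw [Ne, Submodule.Quotient.mk_eq_zero]
    exact hd
  let b := Module.Free.chooseBasis ℤ (L ⧸ K)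
  have hex : ∃ i, b.repr (Submodule.Quotient.mk d) i ≠ 0 := by
    by_contra h
    push Not at h
    apply hdne
    apply b.repr.injective
    rw [map_zero]
    exact Finsupp.ext h
  obtain ⟨i, hi⟩ := hex
  refine ⟨((b.coord i).comp K.mkQ).toAddMonoidHom, ?_, ?_⟩
  · intro k hk
    change b.repr (Submodule.Quotient.mk k) i = 0
    rw [(Submodule.Quotient.mk_eq_zero K).2 hk, map_zero]
    rfl
  · exact hi

/-- Non-vanishing on a finite set outside the sublattice. -/
theorem exists_gen (L : Type) [AddCommGroup L] [Module.Free ℤ L] [Module.Finite ℤ L]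
    (S : Finset L) (K : Submodule ℤ L) (lam : L →+ ℤ) (hl : ∀ k ∈ K, lam k = 0) (hK : Sat K)
    (hS : ∀ a ∈ S, 0 < lam a) (D : Finset L) :
    (∀ d ∈ D, d ∉ K) → ∃ mu : L →+ ℤ, (∀ k ∈ K, mu k = 0) ∧ (∀ a ∈ S, 0 < mu a) ∧
      ∀ d ∈ D, mu d ≠ 0 := by
  classical
  induction D using Finset.induction_on with
  | empty => exact fun _ => ⟨lam, hl, hS, by simp⟩
  | insert d D hdD ih =>
    intro h
    obtain ⟨mu, h1, h2, h3⟩ := ih (fun x hx => h x (Finset.mem_insert_of_mem hx))
    by_cases hmd : mu d = 0
    · obtain ⟨nu, n1, n2⟩ := exists_sep L K hK d (h d (Finset.mem_insert_self d D))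
      set N : ℤ := 1 + ∑ x ∈ S ∪ D, |nu x| with hN
      have hle : ∀ x ∈ S ∪ D, |nu x| < N := by
        intro x hx
        have : |nu x| ≤ ∑ y ∈ S ∪ D, |nu y| :=
          Finset.single_le_sum (f := fun y => |nu y|) (fun y _ => abs_nonneg _) hx
        rw [hN]
        linarith
      have hN0 : 0 < N := by
        have : 0 ≤ ∑ x ∈ S ∪ D, |nu x| := Finset.sum_nonneg (fun y _ => abs_nonneg _)
        rw [hN]
        linarith
      refine ⟨N • mu + nu, ?_, ?_, ?_⟩
      · intro k hk
        change N • mu k + nu k = 0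
        rw [h1 k hk, n1 k hk, smul_zero, add_zero]
      · intro a ha
        change 0 < N • mu a + nu a
        have e1 := hle a (Finset.mem_union_left _ ha)
        have e2 : 1 ≤ mu a := h2 a ha
        have e3 := (abs_lt.1 e1).1
        rw [smul_eq_mul]
        nlinarith
      · intro x hx
        change N • mu x + nu x ≠ 0
        rw [smul_eq_mul]
        rcases Finset.mem_insert.1 hx with rfl | hx
        · rw [hmd, mul_zero, zero_add]
          exact n2
        · intro h0
          have e1 := hle x (Finset.mem_union_right _ hx)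
          have e2 := h3 x hx
          have e3 : |N * mu x| = |nu x| := by
            have : N * mu x = -nu x := by linarith
            rw [this, abs_neg]
          rw [abs_mul, abs_of_pos hN0] at e3
          have e4 : 1 ≤ |mu x| := Int.one_le_abs e2
          nlinarith
    · refine ⟨mu, h1, h2, ?_⟩
      intro x hx
      rcases Finset.mem_insert.1 hx with rfl | hx
      · exact hmd
      · exact h3 x hx

theorem gen : GenS := by
  classical
  intro L _ _ _ S T K lam hl hK hS hT
  obtain ⟨mu, h1, h2, h3⟩ := exists_gen L S K lam hl hK hS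
    (((T ×ˢ T).filter (fun p => p.1 ≠ p.2)).image (fun p => p.1 - p.2)) (by
      intro d hd
      simp only [Finset.mem_image, Finset.mem_filter, Finset.mem_product] at hd
      obtain ⟨p, ⟨⟨hp1, hp2⟩, hp3⟩, rfl⟩ := hd
      intro hk
      exact hp3 (hT _ hp1 _ hp2 hk))
  refine ⟨mu, h1, h2, ?_⟩
  intro a ha b hb hab
  by_contra hne
  apply h3 (a - b)
  · simp only [Finset.mem_image, Finset.mem_filter, Finset.mem_product]
    exact ⟨(a, b), ⟨⟨ha, hb⟩, hne⟩, rfl⟩
  · rw [map_sub, hab, sub_self]

end Pool.Agent.B5.H56
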